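import Pool.Agent.Work.ZH.Final

/-!
# A positive proportion of the rationals has many representations `(p^2-1)/(q-1)`

For `1 ≤ α < β` a positive proportion of the rational numbers in `(α, β)` with numerator at most `N`
has at least `N^(10^-9)` representations `(p^2-1)/(q-1)` with `p`, `q` prime.

Proof: `p` runs over the primes in `(P, (1+ε)P]`, `P = N^(1 + 10^-7)`, with a factorization
`p^2 - 1 = b M`, `N < b ≤ 2N`, such that `M` (of size `P^2/N`, a little above `x^(1/2)`, `x = P^2/α`) factors
suitably. The primes `q ≡ 1` mod `M`, `q ≤ x`, are bounded below on average over the `M` with a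
Buchstab-Harman type decomposition whose bilinear terms are treated by the dispersion method of
Linnik with elementary exponential sums (the modulus is `M = m u v` with a small factor `v`), as in the work of
Fouvry, Bombieri-Friedlander-Iwaniec and Zhang. With `a = (q-1)/M` one has `b/a = (p^2-1)/(q-1)`. The second
moment of the number of representations of `b/a` is bounded above by Selberg's sieve.
-/

namespace Pool.Agent.Results.MP_d3dd4c_nt.PositiveProportion

/-- In every interval of `(1, ∞)` a positive proportion of the rationals of height at most `N` has at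
least `N^(10^-9)` representations. -/
theorem result (α β : ℝ) (hα : 1 ≤ α) (hαβ : α < β) : ∃ c : ℝ, 0 < c ∧ ∃ N₀ : ℕ, ∀ N : ℕ, N₀ ≤ N →
    c * (N : ℝ) ^ 2 ≤
      (Set.ncard {r : ℚ | α < r ∧ (r : ℝ) < β ∧ r.num ≤ N ∧
        ∃ F : Finset (ℕ × ℕ), (N : ℝ) ^ (1 / 1000000000 : ℝ) ≤ F.card ∧
          ∀ t ∈ F, t.1.Prime ∧ t.2.Prime ∧ r = ((t.1 : ℚ) ^ 2 - 1) / ((t.2 : ℚ) - 1)} : ℝ) := by
  obtain ⟨c, hc, N₀, h⟩ := Pool.Agent.ZH.final α β hα hαβ
  exact ⟨c, hc, N₀, fun N hN => h N hN⟩

end Pool.Agent.Results.MP_d3dd4c_nt.PositiveProportion
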